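import Pool.Agent.Run7.h608.BC.Iface

/-! Piece SAN of helper608's project BC (MP_ddcbd8_an, Q2). -/

set_option autoImplicit false

open MeasureTheory Set Filter Topology
open scoped ENNReal ContDiff

namespace Run7.h544.BC

open Run7.h608.BC

theorem t_SAN (hK : S_KER) (hT : S_TAI) : S_SAN := by
  intro β x C c hβ hc hG hlim p q hpq
  have hC : 0 ≤ C := hG.1
  -- real part of `L (T g)`
  have key : ∀ g : ℝ → ℂ, (∀ t, (T g t).im = 0) → ∀ n,
      LR β x n (fun t => (T g t).re) = (L β x n (T g)).re := by
    intro g hg n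
    have e : T g = fun t => (((T g t).re : ℝ) : ℂ) := by
      funext t
      apply Complex.ext
      · simp
      · simp [hg t]
    calc LR β x n (fun t => (T g t).re)
        = ((LR β x n (fun t => (T g t).re) : ℝ) : ℂ).re := (Complex.ofReal_re _).symm
      _ = (L β x n (fun t => (((T g t).re : ℝ) : ℂ))).re := by rw [L_ofReal]
      _ = (L β x n (T g)).re := by rw [← e]
  have hre : ∀ g, Tst g → (∀ t, (T g t).im = 0) →
      Tendsto (fun n => LR β x n (fun t => (T g t).re)) atTop (𝓝 (c * (g 0).re)) := by
    intro g hg him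
    have h1 := (Complex.continuous_re.tendsto _).comp (hlim g hg)
    rw [Complex.re_ofReal_mul] at h1
    refine h1.congr fun n => ?_
    rw [key g him n]
    rfl
  have hg0 : ∀ (g : ℝ → ℂ) (s η : ℝ), ‖g 0 - ((s : ℝ) : ℂ)‖ ≤ η → |(g 0).re - s| ≤ η := by
    intro g s η h
    have := (Complex.abs_re_le_norm (g 0 - ((s : ℝ) : ℂ))).trans h
    simpa using this
  -- upper bound
  have up : ∀ η : ℝ, 0 < η → η < 1 → ∀ᶠ n in atTop,
      (1 - η) * LR β x n (ind p q) ≤ c * (q - p + η) + η := by
    intro η h0 h1
    obtain ⟨g, hg, hb, hlow, hz, -⟩ := hK p q η hpq h0 h1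
    have hl := hre g hg fun t => (hb t).1
    have hev := hl.eventually (gt_mem_nhds (show c * (g 0).re < c * (g 0).re + η by linarith))
    filter_upwards [hev] with n hn
    have h2 : (1 - η) * LR β x n (ind p q) ≤ LR β x n (fun t => (T g t).re) := by
      rw [← LR_smul]
      apply LR_mono β x hβ
      intro t
      unfold ind
      by_cases ht : t ∈ Icc p q
      · rw [indicator_of_mem ht, mul_one]
        exact hlow t ht
      · rw [indicator_of_notMem ht, mul_zero]
        exact (hb t).2.1
    have h3 := abs_le.1 (hg0 g _ η hz)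
    have h4 : c * (g 0).re ≤ c * (q - p + η) := mul_le_mul_of_nonneg_left (by linarith [h3.2]) hc
    linarith
  -- lower bound
  have low : ∀ η : ℝ, 0 < η → η < 1 → p + η < q - η → ∀ᶠ n in atTop,
      c * (q - p - 3 * η) - 8 * C * η - η ≤ LR β x n (ind p q) := by
    intro η h0 h1 h2
    obtain ⟨g, hg, hb, -, hz, hout⟩ := hK (p + η) (q - η) η h2 h0 h1
    have hl := hre g hg fun t => (hb t).1
    have hev := hl.eventually (lt_mem_nhds (show c * (g 0).re - η < c * (g 0).re by linarith))
    filter_upwards [hev] with n hn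
    have h3 : LR β x n (fun t => (T g t).re) ≤
        LR β x n (ind p q) + η * LR β x n (fun t => 1 / (1 + (t / 1) ^ 2)) := by
      rw [← LR_smul, ← LR_add]
      apply LR_mono β x hβ
      intro t
      unfold ind
      have hpos : 0 ≤ η * (1 / (1 + (t / 1) ^ 2)) := by positivity
      by_cases ht : t ∈ Icc p q
      · rw [indicator_of_mem ht]
        linarith [(hb t).2.2]
      · rw [indicator_of_notMem ht, zero_add]
        have := hout t (by
          intro h
          apply ht
          exact ⟨by linarith [h.1], by linarith [h.2]⟩)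
        rw [div_one, mul_one_div]
        exact this
    have h4 := hT β x C hβ hG n 1 le_rfl
    have h5 := abs_le.1 (hg0 g _ η hz)
    have h6 : c * (q - p - 3 * η) ≤ c * (g 0).re :=
      mul_le_mul_of_nonneg_left (by linarith [h5.1]) hc
    have h7 : η * LR β x n (fun t => 1 / (1 + (t / 1) ^ 2)) ≤ η * (8 * C * 1) :=
      mul_le_mul_of_nonneg_left h4 h0.le
    linarith
  -- conclusion
  rw [Metric.tendsto_atTop']
  intro ε hε
  have hcq : 0 ≤ c * (q - p) := mul_nonneg hc (by linarith)
  set M : ℝ := 2 * (c * (q - p) + c + 1) with hM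
  have hM0 : 0 ≤ M := by positivity
  set K : ℝ := 3 * c + 8 * C + 1 + (c + 1 + M) with hKd
  have hK0 : 0 < K := by positivity
  set η : ℝ := min (1 / 2) (min ((q - p) / 4) (ε / (2 * K))) with hη
  have he0 : 0 < η := by
    rw [hη]
    refine lt_min (by norm_num) (lt_min (by linarith) (by positivity))
  have he1 : η ≤ 1 / 2 := min_le_left _ _
  have he2 : η ≤ (q - p) / 4 := (min_le_right _ _).trans (min_le_left _ _)
  have he3 : η ≤ ε / (2 * K) := (min_le_right _ _).trans (min_le_right _ _)
  have hKe : K * η < ε := by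
    have : K * η ≤ K * (ε / (2 * K)) := mul_le_mul_of_nonneg_left he3 hK0.le
    have h2 : K * (ε / (2 * K)) = ε / 2 := by field_simp
    linarith
  obtain ⟨N, hN⟩ := eventually_atTop.1 ((up η he0 (by linarith)).and
    (low η he0 (by linarith) (by linarith)))
  refine ⟨N, fun n hn => ?_⟩
  obtain ⟨h1, h2⟩ := hN n hn.le
  set a : ℝ := LR β x n (ind p q) with ha
  have ha0 : 0 ≤ a := by
    have : LR β x n (fun t => 0 * (1:ℝ)) ≤ LR β x n (ind p q) := by
      apply LR_mono β x hβ
      intro t
      rw [zero_mul]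
      unfold ind
      exact indicator_nonneg (fun _ _ => zero_le_one) t
    rw [LR_smul, zero_mul] at this
    exact this
  have hce : c * η ≤ c * 1 := mul_le_mul_of_nonneg_left (by linarith) hc
  have haM : a ≤ M := by
    have h3 : (1 / 2) * a ≤ (1 - η) * a := mul_le_mul_of_nonneg_right (by linarith) ha0
    rw [hM]
    nlinarith
  have h4 : η * a ≤ η * M := mul_le_mul_of_nonneg_left haM he0.le
  rw [Real.dist_eq, abs_lt]
  have hA : 0 ≤ c * η := mul_nonneg hc he0.le
  have hB : 0 ≤ C * η := mul_nonneg hC he0.le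
  have hD : 0 ≤ M * η := mul_nonneg hM0 he0.le
  have hKexp : K * η = 3 * (c * η) + 8 * (C * η) + η + (c * η + η + M * η) := by rw [hKd]; ring
  constructor
  · nlinarith
  · nlinarith

end Run7.h544.BC
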