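import Pool.Agent.Run7.h608.BC.Iface

/-! Piece TAI of helper608's project BC (MP_ddcbd8_an, Q2). -/

set_option autoImplicit false

open MeasureTheory Set Filter Topology
open scoped ENNReal ContDiff

namespace Run7.h544.BC

open Run7.h608.BC

theorem LR_zero (β x : ℝ) (n : ℕ) : LR β x n (fun _ => 0) = 0 := by
  have h := LR_smul β x n 0 (fun _ => 1)
  simp only [zero_mul] at h
  exact h

theorem LR_sum (β x : ℝ) (n : ℕ) (a : ℕ → ℝ) (u : ℕ → ℝ → ℝ) (N : ℕ) :
    LR β x n (fun t => ∑ i ∈ Finset.range N, a i * u i t) =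
      ∑ i ∈ Finset.range N, a i * LR β x n (u i) := by
  induction N with
  | zero => simpa using LR_zero β x n
  | succ N ih =>
    simp only [Finset.sum_range_succ]
    rw [LR_add, ih, LR_smul]

theorem t_TAI : S_TAI := by
  intro β x C hβ hG n R hR
  obtain ⟨hC, hgro⟩ := hG
  have hR0 : 0 < R := by linarith
  set I : ℕ → ℝ → ℝ := fun i => ind (-(2 ^ i * R)) (2 ^ i * R) with hI
  have hI0 : ∀ i t, 0 ≤ I i t := fun i t => by
    simp only [hI]
    unfold ind
    exact indicator_nonneg (fun _ _ => zero_le_one) t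
  -- pointwise
  have hpt : ∀ N : ℕ, ∀ t : ℝ, 1 / (1 + (t / R) ^ 2) ≤
      (∑ i ∈ Finset.range (N + 1), (4 * (1 / 4 : ℝ) ^ i) * I i t) + (1 / 4) ^ N * 1 := by
    intro N t
    induction N with
    | zero =>
      have h1 : 1 / (1 + (t / R) ^ 2) ≤ 1 := by
        rw [div_le_one (by positivity)]
        nlinarith [sq_nonneg (t / R)]
      simp only [zero_add, Finset.sum_range_one, pow_zero]
      have := hI0 0 t
      linarith
    | succ N ih =>
      rw [Finset.sum_range_succ]
      have h2 : (0 : ℝ) ≤ (1 / 4) ^ (N + 1) := by positivity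
      by_cases ht : t ∈ Icc (-(2 ^ (N + 1) * R)) (2 ^ (N + 1) * R)
      · have e1 : I (N + 1) t = 1 := by
          simp only [hI]
          unfold ind
          exact indicator_of_mem ht _
        rw [e1]
        have e2 : (4 : ℝ) * (1 / 4) ^ (N + 1) = (1 / 4) ^ N := by rw [pow_succ]; ring
        linarith
      · have hs : 0 ≤ ∑ i ∈ Finset.range (N + 1), (4 * (1 / 4 : ℝ) ^ i) * I i t :=
          Finset.sum_nonneg fun i _ => mul_nonneg (by positivity) (hI0 i t)
        have hi : 0 ≤ (4 * (1 / 4 : ℝ) ^ (N + 1)) * I (N + 1) t :=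
          mul_nonneg (by positivity) (hI0 (N + 1) t)
        have h1 : 2 ^ (N + 1) ≤ |t / R| := by
          rw [abs_div, abs_of_pos hR0, le_div_iff₀ hR0]
          by_contra h
          push Not at h
          exact ht (abs_le.1 h.le)
        have h3 : (4 : ℝ) ^ (N + 1) ≤ (t / R) ^ 2 := by
          rw [← sq_abs (t / R)]
          calc (4 : ℝ) ^ (N + 1) = (2 ^ (N + 1)) ^ 2 := by
                rw [← pow_mul, mul_comm, pow_mul]; norm_num
            _ ≤ |t / R| ^ 2 := pow_le_pow_left₀ (by positivity) h1 2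
        have h4 : 1 / (1 + (t / R) ^ 2) ≤ (1 / 4) ^ (N + 1) := by
          rw [one_div_pow]
          exact one_div_le_one_div_of_le (by positivity) (by linarith)
        linarith
  -- the functional
  have hbd : ∀ N : ℕ, LR β x n (fun t => 1 / (1 + (t / R) ^ 2)) ≤
      8 * C * R + (1 / 4) ^ N * β ^ n := by
    intro N
    have h1 := LR_mono β x hβ n _ _ (hpt N)
    rw [LR_add, LR_sum, LR_smul, LR_one] at h1
    refine h1.trans ?_
    have h2 : ∑ i ∈ Finset.range (N + 1), (4 * (1 / 4 : ℝ) ^ i) * LR β x n (I i) ≤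
        ∑ i ∈ Finset.range (N + 1), 4 * C * R * (1 / 2) ^ i := by
      refine Finset.sum_le_sum fun i _ => ?_
      have hb : LR β x n (I i) ≤ C * (2 ^ i * R) :=
        hgro n (2 ^ i * R) (one_le_mul_of_one_le_of_one_le (one_le_pow₀ (by norm_num)) hR)
      calc (4 * (1 / 4 : ℝ) ^ i) * LR β x n (I i) ≤ (4 * (1 / 4 : ℝ) ^ i) * (C * (2 ^ i * R)) :=
            mul_le_mul_of_nonneg_left hb (by positivity)
        _ = 4 * C * R * ((1 / 4) ^ i * 2 ^ i) := by ring
        _ = 4 * C * R * (1 / 2) ^ i := by rw [← mul_pow]; norm_num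
    have h3 : ∑ i ∈ Finset.range (N + 1), 4 * C * R * (1 / 2 : ℝ) ^ i ≤ 8 * C * R := by
      rw [← Finset.mul_sum, geom_sum_eq (by norm_num)]
      have h4 : ((1 / 2 : ℝ) ^ (N + 1) - 1) / (1 / 2 - 1) = 2 * (1 - (1 / 2) ^ (N + 1)) := by ring
      rw [h4]
      have h5 : (0 : ℝ) ≤ (1 / 2) ^ (N + 1) := by positivity
      have h6 : 0 ≤ C * R := mul_nonneg hC hR0.le
      nlinarith [mul_nonneg h6 h5]
    linarith
  have hlim : Tendsto (fun N : ℕ => 8 * C * R + (1 / 4 : ℝ) ^ N * β ^ n) atTop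
      (𝓝 (8 * C * R + 0 * β ^ n)) :=
    tendsto_const_nhds.add
      ((tendsto_pow_atTop_nhds_zero_of_lt_one (by norm_num) (by norm_num)).mul_const _)
  have := ge_of_tendsto' hlim hbd
  linarith

end Run7.h544.BC
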